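import Mathlib
import Pool.Agent.H993.LY.Mom

/-!
# Bogoliubov's momentum distribution of lattice bosons at positive temperature

Lattice bosons at large filling (quantum rotors) on the torus `(ℤ/L)^d`, `d ≥ 3`, with the on-site
repulsion `U ∑ n_x²` (`n_x` is the number of particles at `x` minus the filling), hopping of strength
`J` between nearest neighbours, at the temperature `1/β` and with a fixed number of particles
(`∑ n_x = 0`). The one-particle density matrix, divided by the density, is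
`G(x, y) = ⟨e^{i(θ_x - θ_y)}⟩`, and `n(k) = L^{-d} ∑_{x,y} cos (2 π k (x - y) / L) G(x, y)` is the
momentum distribution. We prove that Bogoliubov's theory gives the momentum distribution: when
`√(U/J) + 1/(βJ) → 0`, then `n(k) ≥ (1 - o(1)) B(k)` for every momentum `k ≠ 0` and
`∑_{k ≠ 0} |n(k) - B(k)| = o(1) ∑_{k ≠ 0} B(k)`, where
`B(k) = (1/2) √(2U/(J λ_k)) coth (β √(2 U J λ_k)/2)`, uniformly in the volume and in the ratio of the
temperature and the energies of the phonons.

The proof combines reflection positivity (infrared bounds in the canonical ensemble), a sharp lower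
bound for the occupation of every mode (Falk-Bruch inequality and uncertainty relation at positive
temperature), and a virial inequality which shows that the sum of the occupations is not larger than
the sum of the lower bounds.
-/

namespace Pool.Agent.Results.MP_dec75e_mp.ThermalMomentumDistribution

open Filter Topology NormedSpace

/-- Occupation numbers (relative to the filling) with total `0`. -/
abbrev Conf (V : Type) [Fintype V] : Type := {n : V → ℤ // ∑ x, n x = 0}

/-- The change of the occupation numbers when one particle moves from `y` to `x`. -/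
def move {V : Type} [DecidableEq V] (x y : V) : V → ℤ := Pi.single x 1 - Pi.single y 1

section

variable {V : Type} [Fintype V] [DecidableEq V]

/-- The hopping operator `(e^{i(θ_x-θ_y)} + e^{i(θ_y-θ_x)})/2`, where `e^{i(θ_x-θ_y)}` moves one
particle from `y` to `x`, compressed to the span of the configurations in `Δ`. -/
noncomputable def hop (Δ : Finset (Conf V)) (x y : V) : Matrix Δ Δ ℝ := fun n m =>
  ((if n.1.1 = m.1.1 + move x y then 1 else 0) +
    (if m.1.1 = n.1.1 + move x y then 1 else 0)) / 2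

end

section

variable {d L : ℕ} [NeZero L]

/-- The Hamiltonian `U ∑_x n_x² - J ∑_x ∑_i cos(θ_x-θ_{x+e_i})` on the torus, compressed to the span
of the configurations in `Δ`. -/
noncomputable def ham (U J : ℝ) (Δ : Finset (Conf (Fin d → ZMod L))) : Matrix Δ Δ ℝ :=
  Matrix.diagonal (fun n : Δ => U * ∑ x, (n.1.1 x : ℝ) ^ 2) -
    ∑ x, ∑ i, J • hop Δ x (x + Pi.single i 1)

/-- The kernel `⟨e^{i(θ_x-θ_y)}⟩` of the one-particle density matrix (divided by the density) in the
Gibbs state of the compressed Hamiltonian. -/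
noncomputable def densityMatrix (β U J : ℝ) (Δ : Finset (Conf (Fin d → ZMod L)))
    (x y : Fin d → ZMod L) : ℝ :=
  (hop Δ x y * exp (-β • ham U J Δ)).trace / (exp (-β • ham U J Δ)).trace

/-- The eigenvalue `λ_k = ∑_i (2 - 2 cos (2πk_i/L))` of the lattice Laplacian. -/
noncomputable def dispersion (k : Fin d → ZMod L) : ℝ :=
  ∑ i, (2 - 2 * Real.cos (2 * Real.pi * ((k i).val : ℝ) / L))

/-- Bogoliubov's value `(1/2) √(2U/(J λ_k)) coth (β √(2 U J λ_k)/2)` of the occupation of one mode. -/
noncomputable def occupation (U J β : ℝ) (k : Fin d → ZMod L) : ℝ :=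
  Real.sqrt (2 * U / (J * dispersion k)) / 2 *
    (Real.cosh (β * Real.sqrt (2 * U * J * dispersion k) / 2) /
      Real.sinh (β * Real.sqrt (2 * U * J * dispersion k) / 2))

/-- The momentum distribution `n(k) = L^{-d} ∑_{x,y} cos (2 π k (x - y) / L) G(x, y)` of a real
symmetric kernel `G`. -/
noncomputable def momentum (G : (Fin d → ZMod L) → (Fin d → ZMod L) → ℝ) (k : Fin d → ZMod L) : ℝ :=
  (∑ x, ∑ y, Real.cos (2 * Real.pi * ((∑ i, k i * (x - y) i : ZMod L).val : ℝ) / L) * G x y) /
    (L : ℝ) ^ d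

end

open Pool.Agent.H993.TR in
/-- The kernel has a limit which is given by the kernels without cut-off. -/
theorem dm_tendsto {d L : ℕ} [NeZero L] {β U J : ℝ} (hβ : 0 < β) (hU : 0 < U) (hJ : 0 < J)
    (x y : Fin d → ZMod L) :
    Tendsto (fun Δ : Finset (Conf (Fin d → ZMod L)) => densityMatrix β U J Δ x y) atTop
      (𝓝 (TI (rs (rotK β (U • (1 : Matrix (Fin d → ZMod L) (Fin d → ZMod L) ℝ))
          (Pool.Agent.N657.QR.nnw J) 0) 0) (sh 0 x y) /
        TI (rs (rotK β (U • (1 : Matrix (Fin d → ZMod L) (Fin d → ZMod L) ℝ))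
          (Pool.Agent.N657.QR.nnw J) 0) 0) id)) := by
  have hw : ∀ x y : Fin d → ZMod L, 0 ≤ Pool.Agent.N657.QR.nnw J x y := fun x y =>
    Pool.Agent.H993.LY.nnw_nn hJ.le x y
  have hpd : (U • (1 : Matrix (Fin d → ZMod L) (Fin d → ZMod L) ℝ)).PosDef :=
    Matrix.PosDef.one.smul hU
  have hA := rotK_adm hβ.le (U • (1 : Matrix (Fin d → ZMod L) (Fin d → ZMod L) ℝ)) hw 0
  have hB := rotK_bdd' hβ hpd hw 0
  set A := rotK β (U • (1 : Matrix (Fin d → ZMod L) (Fin d → ZMod L) ℝ))
    (Pool.Agent.N657.QR.nnw J) 0 with hAd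
  have hne : Nonempty (Sec (Fin d → ZMod L) 0) := ⟨⟨0, by simp⟩⟩
  have hpos := TI_pos (rs_adm hA 0) (rs_bdd hA hB 0)
  have e2 : ∀ Δ : Finset (Conf (Fin d → ZMod L)), Pool.Agent.H993.TR.mt (rs A 0) Δ =
      -β • ham U J Δ := by
    intro Δ
    ext n m
    unfold ham
    rw [Matrix.smul_apply, Matrix.sub_apply, Matrix.sum_apply]
    simp only [Matrix.sum_apply, Matrix.smul_apply, smul_eq_mul]
    rw [hAd]
    unfold Pool.Agent.H993.TR.mt rs rotK
    have e3 : Matrix.diagonal (fun n : Δ => U * ∑ x, (n.1.1 x : ℝ) ^ 2) n m =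
        if n.1.1 = m.1.1 then U * ∑ x, (n.1.1 x : ℝ) ^ 2 else 0 := by
      rw [Matrix.diagonal_apply]
      by_cases hnm : n = m
      · subst hnm; simp
      · rw [if_neg hnm, if_neg]
        intro h'
        exact hnm (Subtype.ext (Subtype.ext h'))
    rw [e3]
    have e4 : ∀ x y, hop Δ x y n m = cosK x y n.1.1 m.1.1 := fun x y => rfl
    have e5 : Pool.Agent.H993.TR.pot (U • (1 : Matrix (Fin d → ZMod L) (Fin d → ZMod L) ℝ)) 0
        n.1.1 = U * ∑ x, (n.1.1 x : ℝ) ^ 2 := by
      unfold Pool.Agent.H993.TR.pot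
      rw [Finset.mul_sum]
      refine Finset.sum_congr rfl fun x _ => ?_
      rw [Finset.sum_eq_single x]
      · rw [Matrix.smul_apply, Matrix.one_apply_eq]
        simp only [Pi.zero_apply, sub_zero, smul_eq_mul]
        ring
      · intro y _ hy
        simp [Matrix.one_apply_ne hy.symm]
      · intro h; exact absurd (Finset.mem_univ _) h
    have e6 : ∑ x, ∑ y, Pool.Agent.N657.QR.nnw J x y * cosK x y n.1.1 m.1.1 =
        ∑ x : Fin d → ZMod L, ∑ i : Fin d, J * cosK x (x + Pi.single i 1) n.1.1 m.1.1 := by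
      refine Finset.sum_congr rfl fun x _ => ?_
      unfold Pool.Agent.N657.QR.nnw
      simp only [Finset.sum_mul]
      rw [Finset.sum_comm]
      refine Finset.sum_congr rfl fun i _ => ?_
      rw [Finset.sum_eq_single (x + Pi.single i 1)]
      · rw [if_pos]
        rfl
      · intro y _ hy
        rw [if_neg, zero_mul]
        exact hy
      · intro h; exact absurd (Finset.mem_univ _) h
    simp only [e4]
    rw [e5, e6]
    split_ifs <;> ring
  have e1 : ∀ Δ : Finset (Conf (Fin d → ZMod L)),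
      (hop Δ x y * exp (-β • ham U J Δ)).trace = TS (rs A 0) (sh 0 x y) Δ := by
    intro Δ
    rw [← e2]
    have h0 : hop Δ x y = Pool.Agent.H993.TR.mt (rs (cosK x y) 0) Δ := rfl
    rw [h0, TS_rs, ← trace_cosK hA, trace_two, trace_two, Finset.sum_map]
    refine Finset.sum_congr rfl fun n _ => ?_
    rw [Finset.sum_map]
    refine Finset.sum_congr rfl fun m _ => ?_
    have h := EE_map (se (Fin d → ZMod L) 0) A Δ m n
    rw [← h]
    rfl
  unfold densityMatrix
  refine Tendsto.div ?_ ?_ hpos.ne'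
  · refine (TS_tendsto (rs_adm hA 0) (rs_bdd hA hB 0) (sh_inj 0 x y)).congr fun Δ => ?_
    rw [e1]
  · refine (TS_tendsto (rs_adm hA 0) (rs_bdd hA hB 0) Function.injective_id).congr fun Δ => ?_
    rw [TS_id, e2]

open Pool.Agent.H993.LY in
theorem occ_eq {d L : ℕ} [NeZero L] {U J β : ℝ} (hU : 0 < U) (hJ : 0 < J) (hβ : 0 < β)
    (k : Fin d → ZMod L) (hk : k ≠ 0) : occupation U J β k =
      sB U J β (Pool.Agent.N657.QR.lam k) := by
  unfold occupation
  have hl : 0 < dispersion k := Pool.Agent.N157.QR_FOU.lam_pos k hk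
  have hlam : Pool.Agent.N657.QR.lam k = dispersion k := rfl
  rw [hlam]
  set l := dispersion k with hld
  set r := Real.sqrt (2 * U * J * l) with hr
  have hr0 : 0 < r := Real.sqrt_pos.2 (by positivity)
  have hr2 : r ^ 2 = 2 * U * J * l := Real.sq_sqrt (by positivity)
  have hx : 0 < β * r / 2 := by positivity
  have h1 : Real.sqrt (2 * U / (J * l)) = r / (J * l) := by
    rw [Real.sqrt_eq_iff_mul_self_eq (by positivity) (by positivity)]
    rw [div_mul_div_comm, ← pow_two r, hr2]
    field_simp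
  have hs : Real.sinh (β * r / 2) ≠ 0 := (Real.sinh_pos_iff.2 hx).ne'
  have h2 : sB U J β l = (β * r / 2 * (Real.cosh (β * r / 2) / Real.sinh (β * r / 2))) /
      (β * J * l) := by
    unfold sB xcoth
    rw [← hr, if_neg hx.ne']
    ring
  rw [h2, h1]
  field_simp

open Pool.Agent.H993.TR Pool.Agent.H993.LY in
/-- **Bogoliubov's momentum distribution at positive temperature**, uniformly in the volume and in
the temperature: `n(k) ≥ (1 - ε) B(k)` for every `k ≠ 0`, and the sum over `k ≠ 0` of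
`|n(k) - B(k)|` is at most `ε` times the sum of `B(k)`. -/
theorem result (d : ℕ) (hd : 3 ≤ d) (ε : ℝ) (hε : 0 < ε) : ∃ δ : ℝ, 0 < δ ∧
    ∀ (L : ℕ) [NeZero L] (U J β : ℝ),
    Even L → 0 < U → 0 < J → 0 < β → Real.sqrt (U / J) + 1 / (β * J) ≤ δ →
    ∃ G : (Fin d → ZMod L) → (Fin d → ZMod L) → ℝ,
      (∀ x y, Tendsto (fun Δ : Finset (Conf (Fin d → ZMod L)) => densityMatrix β U J Δ x y)
        atTop (𝓝 (G x y))) ∧
      (∀ k, k ≠ 0 → (1 - ε) * occupation U J β k ≤ momentum G k) ∧
      ∑ k ∈ (Finset.univ : Finset (Fin d → ZMod L)).erase 0,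
        |momentum G k - occupation U J β k| ≤
        ε * ∑ k ∈ (Finset.univ : Finset (Fin d → ZMod L)).erase 0, occupation U J β k := by
  obtain ⟨δ, hδ, h⟩ := neutral_mom d hd ε hε
  refine ⟨δ, hδ, ?_⟩
  intro L _ U J β hL hU hJ hβ ha
  have hw : ∀ x y : Fin d → ZMod L, 0 ≤ Pool.Agent.N657.QR.nnw J x y := fun x y =>
    nnw_nn hJ.le x y
  have e3 : ∀ x y, TI (rs (rotK β (U • (1 : Matrix (Fin d → ZMod L) (Fin d → ZMod L) ℝ))
      (Pool.Agent.N657.QR.nnw J) 0) 0) (sh 0 x y) = WW (NN d L β U J) (eta x y) := fun x y =>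
    (WW_eta hβ hU hw x y).symm
  have e4 : TI (rs (rotK β (U • (1 : Matrix (Fin d → ZMod L) (Fin d → ZMod L) ℝ))
      (Pool.Agent.N657.QR.nnw J) 0) 0) id = WW (NN d L β U J) 0 := (WW_zero hβ hU hw).symm
  have hcard : ((Fintype.card (Fin d → ZMod L) : ℕ) : ℝ) = (L : ℝ) ^ d := card_pow
  have hm : ∀ k : Fin d → ZMod L, momentum (fun x y => WW (NN d L β U J) (eta x y) /
      WW (NN d L β U J) 0) k = TT (NN d L β U J) k /
        ((Fintype.card (Fin d → ZMod L) : ℝ) * WW (NN d L β U J) 0) := by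
    intro k
    unfold momentum
    rw [TT_cos, hcard, mul_comm ((L : ℝ) ^ d), ← div_div]
    refine congrArg (fun t : ℝ => t / (L : ℝ) ^ d) ?_
    rw [Finset.sum_div]
    refine Finset.sum_congr rfl fun x _ => ?_
    rw [Finset.sum_div]
    exact Finset.sum_congr rfl fun y _ => (mul_div_assoc _ _ _).symm
  obtain ⟨h1, h2⟩ := h L U J β hL hU hJ hβ ha
  refine ⟨fun x y => WW (NN d L β U J) (eta x y) / WW (NN d L β U J) 0, fun x y => ?_, ?_, ?_⟩
  · have h3 := dm_tendsto (d := d) (L := L) hβ hU hJ x y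
    rw [e3, e4] at h3
    exact h3
  · intro k hk
    rw [hm, occ_eq hU hJ hβ k hk]
    exact h1 k hk
  · have h4 : ∑ k ∈ (Finset.univ : Finset (Fin d → ZMod L)).erase 0, occupation U J β k =
        ∑ k ∈ (Finset.univ : Finset (Fin d → ZMod L)).erase 0,
          sB U J β (Pool.Agent.N657.QR.lam k) :=
      Finset.sum_congr rfl fun k hk => occ_eq hU hJ hβ k (Finset.ne_of_mem_erase hk)
    rw [h4]
    refine le_trans (le_of_eq ?_) h2
    refine Finset.sum_congr rfl fun k hk => ?_
    rw [hm, occ_eq hU hJ hβ k (Finset.ne_of_mem_erase hk)]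

end Pool.Agent.Results.MP_dec75e_mp.ThermalMomentumDistribution
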